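import Mathlib

/-!
# A degree-sequence condition for families of subgraphs of `K_{n,n}`: a counterexample

For every `n ≥ 5` there are three subgraphs of `K_{n,n}` which satisfy the hypothesis, but for which
no choice of distinct vertices satisfies the conclusion.  The degrees at the vertices of the second
side are `(1, 0, …, 0)`, `(n, 2, …, 2)` and `(n, 3, …, 3)`.
-/

namespace Pool.Agent.Results.MP_2568f3_co.ThreeGraphs

open Finset

/-- The degree of the vertex `v` of the second side in the subgraph `F` of `K_{n,n}`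
(the edge joining `x` on the first side to `y` on the second side is the pair `(x, y)`). -/
def deg {n : ℕ} (F : Finset (Fin n × Fin n)) (v : Fin n) : ℕ := (F.filter (fun e => e.2 = v)).card

/-- The sum of the first `j` terms of the non-decreasing rearrangement of the sequence `c`. -/
def lowSum {k : ℕ} (c : Fin k → ℕ) (j : ℕ) : ℕ :=
  ∑ i : Fin k with i.val < j, c (Tuple.sort c i)

/-- The hypothesis on the numbers of edges. -/
def Hyp {k n : ℕ} (F : Fin k → Finset (Fin n × Fin n)) : Prop :=
  ∀ j : ℕ, 1 ≤ j → j ≤ k → j * (j - 1) * n < lowSum (fun i => (F i).card) j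

/-- The conclusion: there are distinct vertices `u i` of the second side whose degrees in the
`F i` satisfy the inequalities. -/
def Concl {k n : ℕ} (F : Fin k → Finset (Fin n × Fin n)) : Prop :=
  ∃ u : Fin k → Fin n, Function.Injective u ∧
    ∀ j : ℕ, 1 ≤ j → j ≤ k → j * (j - 1) < lowSum (fun i => deg (F i) (u i)) j

/-- All edges at the vertex `0` of the second side, and all edges at the first `a` vertices of the
first side. -/
def gr (n a : ℕ) : Finset (Fin n × Fin n) :=
  univ.filter (fun e => e.2.val = 0 ∨ e.1.val < a)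

/-- The single edge `00`. -/
def one (n : ℕ) : Finset (Fin n × Fin n) :=
  univ.filter (fun e => e.2.val = 0 ∧ e.1.val = 0)

/-- The three graphs. -/
def fam (n : ℕ) : Fin 3 → Finset (Fin n × Fin n) := ![one n, gr n 2, gr n 3]

lemma card_lt (n a : ℕ) (ha : a ≤ n) : (univ.filter (fun x : Fin n => x.val < a)).card = a := by
  rw [← Finset.card_image_of_injective _ Fin.val_injective]
  have : (univ.filter (fun x : Fin n => x.val < a)).image (fun x : Fin n => x.val) = range a := by
    ext y
    simp only [mem_image, mem_filter, mem_univ, true_and, mem_range]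
    constructor
    · rintro ⟨x, hx, rfl⟩; exact hx
    · intro hy; exact ⟨⟨y, by omega⟩, hy, rfl⟩
  rw [this, card_range]

lemma deg_eq {n : ℕ} (F : Finset (Fin n × Fin n)) (v : Fin n) :
    deg F v = (univ.filter (fun x : Fin n => (x, v) ∈ F)).card := by
  unfold deg
  symm
  apply Finset.card_bij (fun x _ => (x, v))
  · intro x hx
    simpa using hx
  · intro x _ y _ h
    simpa using h
  · rintro ⟨x, w⟩ h
    simp only [mem_filter] at h
    obtain ⟨h1, rfl⟩ := h
    exact ⟨x, by simpa using h1, rfl⟩

lemma deg_gr_zero {n a : ℕ} (v : Fin n) (hv : v.val = 0) : deg (gr n a) v = n := by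
  rw [deg_eq]
  simp [gr, hv]

lemma deg_gr {n a : ℕ} (ha : a ≤ n) (v : Fin n) (hv : v.val ≠ 0) : deg (gr n a) v = a := by
  rw [deg_eq]
  have : (univ.filter (fun x : Fin n => (x, v) ∈ gr n a)) =
      univ.filter (fun x : Fin n => x.val < a) := by
    ext x; simp [gr, hv]
  rw [this, card_lt n a ha]

lemma deg_one {n : ℕ} (v : Fin n) : deg (one n) v ≤ 1 := by
  rw [deg_eq, card_le_one]
  intro x hx y hy
  simp only [one, mem_filter, mem_univ, true_and] at hx hy
  exact Fin.ext (by omega)

lemma deg_one_ne {n : ℕ} (v : Fin n) (hv : v.val ≠ 0) : deg (one n) v = 0 := by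
  rw [deg_eq, card_eq_zero]
  ext x; simp [one, hv]

lemma card_one {n : ℕ} (hn : 1 ≤ n) : (one n).card = 1 := by
  rw [card_eq_one]
  refine ⟨(⟨0, by omega⟩, ⟨0, by omega⟩), ?_⟩
  ext ⟨x, y⟩
  simp only [one, mem_filter, mem_univ, true_and, mem_singleton, Prod.mk.injEq, Fin.ext_iff]
  tauto

lemma card_gr {n a : ℕ} (hn : 1 ≤ n) (ha : a ≤ n) : (gr n a).card = n + (n - 1) * a := by
  have h1 : (gr n a).card = ∑ v : Fin n, deg (gr n a) v := by
    unfold deg
    exact card_eq_sum_card_fiberwise (fun e _ => mem_univ e.2)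
  rw [h1]
  obtain ⟨m, rfl⟩ : ∃ m, n = m + 1 := ⟨n - 1, by omega⟩
  rw [Fin.sum_univ_succ, deg_gr_zero (0 : Fin (m + 1)) rfl]
  rw [Finset.sum_congr rfl (fun v _ => deg_gr ha (Fin.succ v) (by simp))]
  simp

lemma lowSum_of_monotone {k : ℕ} (c : Fin k → ℕ) (hc : Monotone c) (j : ℕ) :
    lowSum c j = ∑ i : Fin k with i.val < j, c i := by
  unfold lowSum
  rw [Tuple.sort_eq_refl_iff_monotone.mpr hc]
  rfl

/-- The first term of the rearrangement is a smallest term. -/
lemma lowSum_one {c : Fin 3 → ℕ} (i : Fin 3) : lowSum c 1 ≤ c i := by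
  have h1 : lowSum c 1 = c (Tuple.sort c 0) := by
    unfold lowSum
    have : (univ.filter (fun i : Fin 3 => i.val < 1)) = {0} := by decide
    rw [this, sum_singleton]
  rw [h1]
  have h2 := Tuple.monotone_sort c (Fin.zero_le ((Tuple.sort c).symm i))
  simpa using h2

/-- The last inequality is about the sum of all terms. -/
lemma lowSum_three (c : Fin 3 → ℕ) : lowSum c 3 = c 0 + c 1 + c 2 := by
  unfold lowSum
  have : (univ.filter (fun i : Fin 3 => i.val < 3)) = univ := by decide
  rw [this, Equiv.sum_comp (Tuple.sort c) c, Fin.sum_univ_three]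

lemma hyp {n : ℕ} (hn : 5 ≤ n) : Hyp (fam n) := by
  have h0 : (fam n 0).card = 1 := card_one (by omega)
  have h1 : (fam n 1).card = n + (n - 1) * 2 := card_gr (by omega) (by omega)
  have h2 : (fam n 2).card = n + (n - 1) * 3 := card_gr (by omega) (by omega)
  have hmono : Monotone (fun i => (fam n i).card) := by
    intro i j hij
    fin_cases i <;> fin_cases j <;> simp_all <;> omega
  intro j hj hj3
  rw [lowSum_of_monotone _ hmono]
  have e1 : (univ.filter (fun i : Fin 3 => i.val < 1)) = {0} := by decide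
  have e2 : (univ.filter (fun i : Fin 3 => i.val < 2)) = {0, 1} := by decide
  have e3 : (univ.filter (fun i : Fin 3 => i.val < 3)) = {0, 1, 2} := by decide
  interval_cases j
  · rw [e1, sum_singleton, h0]; omega
  · rw [e2, sum_pair (by decide), h0, h1]; omega
  · rw [e3, sum_insert (by decide), sum_pair (by decide), h0, h1, h2]; omega

lemma not_concl {n : ℕ} (hn : 5 ≤ n) : ¬ Concl (fam n) := by
  rintro ⟨u, hu, h⟩
  by_cases h0 : (u 0).val = 0
  · have h3 := h 3 (by norm_num) le_rfl
    rw [lowSum_three] at h3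
    have hne1 : (u 1).val ≠ 0 := by
      intro h1
      have := hu (Fin.ext (h1.trans h0.symm))
      exact absurd this (by decide)
    have hne2 : (u 2).val ≠ 0 := by
      intro h1
      have := hu (Fin.ext (h1.trans h0.symm))
      exact absurd this (by decide)
    have d0 : deg (fam n 0) (u 0) ≤ 1 := deg_one _
    have d1 : deg (fam n 1) (u 1) = 2 := deg_gr (by omega) _ hne1
    have d2 : deg (fam n 2) (u 2) = 3 := deg_gr (by omega) _ hne2
    omega
  · have h1 := h 1 le_rfl (by norm_num)
    have h2 := lowSum_one (c := fun i => deg (fam n i) (u i)) 0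
    have d0 : deg (fam n 0) (u 0) = 0 := deg_one_ne _ h0
    omega

/-- **Main theorem.**  For every `n ≥ 5` there are three subgraphs of `K_{n,n}` satisfying the
hypothesis but not the conclusion; so the implication does not hold for all `k, n ≥ 1`. -/
theorem result :
    (∀ n : ℕ, 5 ≤ n → ∃ F : Fin 3 → Finset (Fin n × Fin n), Hyp F ∧ ¬ Concl F) ∧
    ¬ (∀ k n : ℕ, 1 ≤ k → 1 ≤ n → ∀ F : Fin k → Finset (Fin n × Fin n), Hyp F → Concl F) :=
  ⟨fun n hn => ⟨fam n, hyp hn, not_concl hn⟩,
    fun h => not_concl le_rfl (h 3 5 (by norm_num) (by norm_num) (fam 5) (hyp le_rfl))⟩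

end Pool.Agent.Results.MP_2568f3_co.ThreeGraphs
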